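import Mathlib
import Pool.Agent.Y221.VC.Rul

/-!
MP_5c318e_ag, Q1: Viehweg's inequality for the fibrations whose total space is dominated by a variety
given by high powers.

Let `V` be an irreducible component, of dimension `w ≥ 1`, of a projective variety in `ℙⁿ` which is
given by sums of at most `s` powers of linear forms, or by forms with at most `s` monomials and
divisible exponents, the exponents being at least `N ≥ r w (s + 4) (s - 1) (s - 2) / 2`. Let `X` be a
smooth projective variety with a dominant rational map `V ⇢ X` of degree at most `r`. No other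
assumption is made on `X` and on the map. We consider all fibrations `f : X → Y` with `κ(Y) ≥ 0`.

`K`, `L`, `M` are the function fields of `V`, `X`, `Y`, and `y` is the generic point of `V`; `Λ` is an
algebraic closure of `M`, and `E` the function field over `Λ` of the geometric generic fibre of `f`:
the field generated by `L` and `Λ`. `kappa k K n`: the Kodaira dimension (`⊥` for `-∞`) of the smooth
projective varieties of dimension `n` with function field `K` over `k`; `variation k Λ E`: `Var(f)`
(`Pool/Agent/Y221/VC/Defs.lean`). `HighPowers`, `SubVar`, `IsComponent`, `GeneralType`: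
`Pool/Agent/W602/GT`.
-/

set_option autoImplicit false
set_option maxHeartbeats 400000

namespace Pool.Agent.Results.MP_5c318e_ag.DominatedTotalSpaces

open Pool.Agent.W602.GT Pool.Agent.Y221.VC

/-- Let `V`, `w`, `s`, `N`, `r`, `X` be as above, over an algebraically closed field `k` of
characteristic zero (for instance the complex numbers), and let `f : X → Y` be a fibration, or any
dominant rational map, with `κ(Y) ≥ 0` and geometric generic fibre `F`. Then
`κ(X) ≥ κ(F) + max (κ(Y), Var(f))`. If moreover `κ(F) ≥ 0` then `X` is of general type. -/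
theorem result {k : Type} [Field k] [IsAlgClosed k] [CharZero k] {n : ℕ} {ι : Type}
    {F : ι → MvPolynomial (Fin (n + 1)) k} {s N r w : ℕ}
    (hF : HighPowers s N F) (hN1 : 1 ≤ N) (hw : 1 ≤ w)
    (hN : r * (w * ((s + 4) * ((s - 1) * (s - 2) / 2))) ≤ N)
    -- `V` and `X`
    {K L : Type} [Field K] [Field L] [Algebra k K] [Algebra k L] [Algebra L K]
    [IsScalarTower k L K] [FiniteDimensional L K] {y : Fin (n + 1) → K}
    (hy : SubVar F K w y) (hcomp : IsComponent F y) (hr : Module.finrank L K ≤ r)
    -- `Y`
    {M : Type} [Field M] [Algebra k M] [Algebra M L] [IsScalarTower k M L] {d : ℕ}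
    (hM : Algebra.trdeg k M = d)
    -- the geometric generic fibre
    {Λ E : Type} [Field Λ] [Field E] [Algebra k Λ] [Algebra M Λ] [IsScalarTower k M Λ]
    [IsAlgClosure M Λ] [Algebra Λ E] [Algebra L E] [Algebra M E] [IsScalarTower M Λ E]
    [IsScalarTower M L E]
    (hE : IntermediateField.adjoin Λ (Set.range (algebraMap L E)) = ⊤) {e : ℕ}
    (he : Algebra.trdeg Λ E = e)
    (hκ : kappa k M d ≠ ⊥) :
    kappa Λ E e + max (kappa k M d) (variation k Λ E : WithBot ℕ) ≤ kappa k L w ∧
      (kappa Λ E e ≠ ⊥ → GeneralType k L w) := by
  have h1 : Algebra.IsAlgebraic M Λ := IsAlgClosure.isAlgebraic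
  have h2 : IsAlgClosed Λ := IsAlgClosure.isAlgClosed M
  exact main_ineq rul hF hN1 hw hN hy hcomp hr hE hM he hκ

end Pool.Agent.Results.MP_5c318e_ag.DominatedTotalSpaces
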